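import Pool.Agent.Lib_helper71.EQM.Core
import Pool.Agent.Lib_helper71.EQM.Surf

/-!
MP_ed6ab2_an, Q1 (negated form), in a strong quantitative form.

For every `ε > 0` there is a closed Riemannian surface with ergodic geodesic flow and a sequence of
normalised Laplace eigenfunctions, with eigenvalues tending to infinity, which is not
equidistributed; some open set `D` of positive area, with boundary of area zero, gets from every
eigenfunction of the sequence at most `ε` times its share of the mass.

The surface is the double of the flat torus `ℂ / (8ℤ + iWℤ)` minus the unit disc, glued along a neck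
of negative curvature, `W` large. The statement uses only the definitions of
`Pool.Agent.Lib_helper99.EQF.Notions`.
-/

set_option autoImplicit false

namespace Pool.Agent.Results.MP_ed6ab2_an.ErgodicNotEquidistributed

open MeasureTheory Filter Topology Set Pool.Agent.EQ

theorem result : ∀ ε : ℝ, 0 < ε → ∃ S : ClosedSurface, S.IsErgodic ∧
    ∃ (ψ : ℕ → S.M → ℝ) (lam : ℕ → ℝ), S.EigenSequence ψ lam ∧ ¬ S.Equidistributed ψ ∧
      ∃ D : Set S.M, IsOpen D ∧ S.area (frontier D) = 0 ∧ 0 < S.area D ∧ S.area univ < ⊤ ∧
        ∀ j, ∫ x in D, ψ j x ^ 2 ∂S.area ≤ ε * (S.area.real D / S.area.real univ) := by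
  intro ε hε
  obtain ⟨S, hS, ψ, lam, hE, D, hD, hf, hpos, hfin, hm⟩ :=
    final_of_core exists_gflow core_statement (min ε (1 / 2)) (lt_min hε (by norm_num))
  have h3 : 0 < S.area.real univ :=
    ENNReal.toReal_pos (lt_of_lt_of_le hpos (measure_mono (subset_univ D))).ne' hfin.ne
  have h4 : 0 < S.area.real D :=
    ENNReal.toReal_pos hpos.ne' (lt_of_le_of_lt (measure_mono (subset_univ D)) hfin).ne
  have h5 : 0 < S.area.real D / S.area.real univ := div_pos h4 h3
  refine ⟨S, hS, ψ, lam, hE, fun hq => ?_, D, hD, hf, hpos, hfin, fun j => ?_⟩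
  · have h1 := le_of_tendsto' (hq D hD hf) hm
    have h2 := mul_le_mul_of_nonneg_right (min_le_right ε (1 / 2)) h5.le
    linarith
  · exact (hm j).trans (mul_le_mul_of_nonneg_right (min_le_left _ _) h5.le)

end Pool.Agent.Results.MP_ed6ab2_an.ErgodicNotEquidistributed
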